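import Pool.Agent.Lib_helper45.JO.Defs
import Pool.Agent.Lib_helper84.JO.Form

/-!
# Project JO, part FM (Maass frame), weight 1: definitions
-/

set_option autoImplicit false

namespace Pool.Agent.JO.FM1

open Complex Filter Topology MeasureTheory Set
open UpperHalfPlane hiding I
open Pool.Agent.JO.FM
open scoped MatrixGroups ComplexConjugate

/-- `W₊(x) = x (K_{ν+1/2}(x) + K_{ν-1/2}(x)) = x ∫_ℝ e^{-x cosh u + νu} cosh(u/2) du` -/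
noncomputable def Wp (ν : ℂ) (x : ℝ) : ℂ := x * (KK (ν + 1 / 2) x + KK (ν - 1 / 2) x)

/-- `sinh(νu)/ν` (`u` if `ν = 0`) -/
noncomputable def SS (ν : ℂ) (u : ℝ) : ℂ := if ν = 0 then (u : ℂ) else Complex.sinh (ν * u) / ν

/-- `V(x) = ν⁻¹ x (K_{ν+1/2}(x) - K_{ν-1/2}(x))` (also for `ν = 0`, as a limit) -/
noncomputable def Vm (ν : ℂ) (x : ℝ) : ℂ :=
  x * ∫ u : ℝ, cexp (-(x : ℂ) * (Real.cosh u : ℝ)) * (SS ν u * (Real.sinh (u / 2) : ℝ))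

/-- the Whittaker function of the frequency `m`: `W₊` for `m > 0`, `V` for `m < 0` -/
noncomputable def Wz (ν : ℂ) (m : ℤ) (x : ℝ) : ℂ := if 0 < m then Wp ν x else Vm ν x

/-- the expansion `F(x+iy) = ∑_{m ≠ 0} β_m W_m(2π|m|y/P) e(mx/P)` (weight `1`), with the dyadic
bound for the coefficients -/
structure Expn1 (P : ℕ) (ν : ℂ) (β : ℤ → ℂ) (F : ℍ → ℂ) : Prop where
  zero : β 0 = 0
  dyad : ∃ C : ℝ, ∀ M : ℕ, 0 < M →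
    ∑ m ∈ Finset.Icc M (2 * M), (‖β (m : ℤ)‖ ^ 2 + ‖β (-(m : ℤ))‖ ^ 2) ≤ C
  hasSum : ∀ x y : ℝ, 0 < y → HasSum (fun m : ℤ =>
    β m * Wz ν m (2 * Real.pi * |(m : ℝ)| * y / P) * cexp ((2 * Real.pi * m * x / P : ℝ) * I))
    (F (pz x y))

/-- the slash operator of weight `1` -/
noncomputable def sl (σ : SL(2, ℤ)) (f : ℍ → ℂ) (z : ℍ) : ℂ :=
  f (σ • z) * (denom σ z / ‖denom σ z‖)⁻¹

/-- `f` has an expansion at every cusp -/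
def Cusp1 (N : ℕ) (ν : ℂ) (f : ℍ → ℂ) : Prop :=
  ∀ σ : SL(2, ℤ), ∃ β : ℤ → ℂ, Expn1 N ν β (sl σ f)

/-- the lowering operator of weight `1` -/
noncomputable def Lo (f : ℍ → ℂ) (z : ℍ) : ℂ := f z / 2 + z.im * (I * dX f z - dY f z)

/-- the raising operator of weight `-1` -/
noncomputable def Ra (f : ℍ → ℂ) (z : ℍ) : ℂ := -(f z / 2) + z.im * (I * dX f z + dY f z)

/-- `(Q f)(z) = (Λ f)(-z̄)`: maps forms of weight `1` to forms of weight `1` -/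
noncomputable def Qo (f : ℍ → ℂ) (z : ℍ) : ℂ := Lo f (pz (-z.re) z.im)

/-- the coefficients `a(|n|) |n|^{-1/2}` for `n > 0`, `ε ν a(|n|) |n|^{-1/2}` for `n < 0` -/
noncomputable def cf1 (ν : ℂ) (ε : ℝ) (a : ℕ → ℂ) (n : ℤ) : ℂ :=
  if n = 0 then 0 else (if n < 0 then (ε : ℂ) * ν else 1) * a n.natAbs *
    ((√(n.natAbs : ℝ) : ℝ) : ℂ)⁻¹

/-- everything about a (modified) Hecke-Maass form of weight `1` which is used on the rays -/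
structure Frame1 (ν : ℂ) (ε : ℝ) (a : ℕ → ℂ) (f : ℍ → ℂ) : Prop where
  nu : ν.re = 0
  nune : ν ≠ 0
  eps : ε = 1 ∨ ε = -1
  one : a 1 = 1
  cont : Continuous f
  expn : Expn1 1 ν (cf1 ν ε a) f
  dec : ∃ C c : ℝ, 0 < c ∧ ∀ z : ℍ, ‖f z‖ ≤ C * Real.exp (-(c * z.im)) ∧
    ‖f z‖ ≤ C * Real.exp (-(c * (z.im / normSq (z : ℂ))))

/-- the integrand of `G1` -/
noncomputable def g1i (ν : ℂ) (ε : ℝ) (s θ : ℂ) (u : ℝ) : ℂ :=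
  cexp (ν * u) *
    ((Real.cosh (u / 2) : ℝ) *
        (Complex.sin θ * (Real.cosh u : ℝ) - I * Complex.cos θ) ^ (-s - 1 / 2) +
      ε * ((Real.sinh (u / 2) : ℝ) *
        (Complex.sin θ * (Real.cosh u : ℝ) + I * Complex.cos θ) ^ (-s - 1 / 2)))

/-- the integral of plane waves: `Mf f s θ = L(s) * G1 ν ε s θ`; `θ` complex, `0 < Re θ < π` -/
noncomputable def G1 (ν : ℂ) (ε : ℝ) (s θ : ℂ) : ℂ :=
  ((2 * Real.pi : ℝ) : ℂ) ^ (1 / 2 - s) * Gamma (s + 1 / 2) * Complex.sin θ *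
    ∫ u : ℝ, g1i ν ε s θ u

/-- `|G1(1/2 + i t, θ)|²` on the real axis, analytic in `θ` -/
noncomputable def Ph1 (ν : ℂ) (ε t : ℝ) (θ : ℂ) : ℂ :=
  G1 ν ε (ha t) θ * conj (G1 ν ε (ha t) (conj θ))

/-- the entire function `L` and its connection with the ray transform -/
structure LFun1 (ν : ℂ) (ε : ℝ) (a : ℕ → ℂ) (f : ℍ → ℂ) (L : ℂ → ℂ) : Prop where
  diff : Differentiable ℂ L
  ser : ∀ s : ℂ, 1 < s.re → LSeriesSummable a s ∧ L s = LSeries a s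
  mf : ∀ (s : ℂ) (θ : ℝ), 0 < s.re → θ ∈ Ioo 0 Real.pi → Mf f s θ = L s * G1 ν ε s θ

/-- `κ₊ + κ₋` -/
noncomputable def kS (ν s : ℂ) : ℂ :=
  (2 : ℂ) ^ (s - 1) * Gamma (s / 2) ^ 2 * Gamma ((s + 1) / 2 + ν) * Gamma ((s + 1) / 2 - ν) /
    Gamma s

/-- `κ₊ - κ₋` -/
noncomputable def kD (ν s : ℂ) : ℂ :=
  (2 : ℂ) ^ (s - 1) * Gamma ((s + 1) / 2) ^ 2 * Gamma (s / 2 + ν) * Gamma (s / 2 - ν) / Gamma s

/-- `κ₊ = ∫_0^∞ |W₊(x)|² x^{s-2} dx` -/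
noncomputable def kp (ν s : ℂ) : ℂ := (kS ν s + kD ν s) / 2

/-- `κ₋ = ∫_0^∞ |ν V(x)|² x^{s-2} dx` -/
noncomputable def km (ν s : ℂ) : ℂ := (kS ν s - kD ν s) / 2

/-- the analytic continuation of `F(θ) = ray (phi f) θ` to the strip `0 < Re θ < π` -/
noncomputable def FC1 (ν : ℂ) (ε : ℝ) (L : ℂ → ℂ) (θ : ℂ) : ℂ :=
  ((2 * Real.pi : ℝ) : ℂ)⁻¹ * ∫ t : ℝ, ((‖L (ha t)‖ ^ 2 : ℝ) : ℂ) * Ph1 ν ε t θ

/-- the diagonal part `D_q(Y) = ∑_m β_{qm} conj β_m W_m(2πq|m|Y/P)²` -/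
noncomputable def Dg1 (P : ℕ) (ν : ℂ) (β : ℤ → ℂ) (q : ℕ) (Y : ℝ) : ℂ :=
  ∑' m : ℤ, β (q * m) * conj (β m) *
    ((‖Wz ν m (2 * Real.pi * q * |(m : ℝ)| * Y / P)‖ ^ 2 : ℝ) : ℂ)

/-- `U_q(Y₀) = ∫_{Y₀}^1 D_q(Y) dY/Y` -/
noncomputable def Ug1 (P : ℕ) (ν : ℂ) (β : ℤ → ℂ) (q : ℕ) (Y₀ : ℝ) : ℂ :=
  ∫ Y in Y₀..1, Dg1 P ν β q Y / Y

/-- `(1 - iX/τ)^(-1-iτ)`, close to `e^{-X}` -/
noncomputable def hs1 (τ X : ℝ) : ℂ := (1 - I * ((X / τ : ℝ) : ℂ)) ^ (-1 - (τ : ℂ) * I)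

end Pool.Agent.JO.FM1
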