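import Pool.Agent.Lib_helper58.JOSF.EXT

/-! # JO: holomorphic extension, both ends of the strip -/

namespace Pool.Agent.JOS

open Complex Filter Topology Set Metric

/-- bound on the part in the strip of a compact subset of a good domain -/
theorem ext2_cpt {f : ℝ → ℂ} (hf : Ext f) {R : ℂ → ℂ} (hR : DifferentiableOn ℂ R Pool.Agent.Lib_helper37.JO.strip)
    (hR2 : ∀ θ : ℝ, θ ∈ Ioo (0 : ℝ) Real.pi → R θ = f θ)
    {U K : Set ℂ} (hU : IsOpen U) (hc : Convex ℝ U) (hp : ((Real.pi / 2 : ℝ) : ℂ) ∈ U)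
    (hs : ∀ z ∈ U, Complex.sin z ≠ 0) (hK : IsCompact K) (hKU : K ⊆ U) :
    ∃ C : ℝ, ∀ z ∈ K, z ∈ Pool.Agent.Lib_helper37.JO.strip → ‖R z‖ ≤ C := by
  have hpi := Real.pi_pos
  have hSo := Pool.Agent.Lib_helper37.JO.isOpen_strip
  have hSc : Convex ℝ Pool.Agent.Lib_helper37.JO.strip := by
    have e1 : Convex ℝ {z : ℂ | 0 < z.re} := convex_halfSpace_re_gt 0
    have e2 : Convex ℝ {z : ℂ | z.re < Real.pi} := convex_halfSpace_re_lt Real.pi
    exact e1.inter e2
  have hSp : ((Real.pi / 2 : ℝ) : ℂ) ∈ Pool.Agent.Lib_helper37.JO.strip := by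
    constructor
    · rw [Complex.ofReal_re]; linarith
    · rw [Complex.ofReal_re]; linarith
  obtain ⟨F, hF, hF2⟩ := hf U hU hc hp hs
  obtain ⟨C, hC⟩ := hK.exists_bound_of_continuousOn (hF.continuousOn.mono hKU)
  have heq : EqOn F R (U ∩ Pool.Agent.Lib_helper37.JO.strip) := by
    have hFa : AnalyticOnNhd ℂ F (U ∩ Pool.Agent.Lib_helper37.JO.strip) :=
      (hF.mono inter_subset_left).analyticOnNhd (hU.inter hSo)
    have hRa : AnalyticOnNhd ℂ R (U ∩ Pool.Agent.Lib_helper37.JO.strip) :=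
      (hR.mono inter_subset_right).analyticOnNhd (hU.inter hSo)
    refine hFa.eqOn_of_preconnected_of_frequently_eq hRa (hc.inter hSc).isPreconnected
      (z₀ := ((Real.pi / 2 : ℝ) : ℂ)) ⟨hp, hSp⟩ ?_
    have htend : Tendsto (fun x : ℝ => (x : ℂ)) (𝓝[≠] (Real.pi / 2)) (𝓝[≠] ((Real.pi / 2 : ℝ) : ℂ)) := by
      refine tendsto_nhdsWithin_iff.mpr ⟨?_, ?_⟩
      · exact (Complex.continuous_ofReal.tendsto _).mono_left nhdsWithin_le_nhds
      · filter_upwards [self_mem_nhdsWithin] with x hx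
        intro h
        exact hx (Complex.ofReal_injective h)
    refine htend.frequently ?_
    have hev : ∀ᶠ x : ℝ in 𝓝[≠] (Real.pi / 2), (x : ℂ) ∈ U ∩ Pool.Agent.Lib_helper37.JO.strip := by
      have h3 : ∀ᶠ x : ℝ in 𝓝 (Real.pi / 2), (x : ℂ) ∈ U ∩ Pool.Agent.Lib_helper37.JO.strip :=
        Complex.continuous_ofReal.continuousAt ((hU.inter hSo).mem_nhds ⟨hp, hSp⟩)
      exact h3.filter_mono nhdsWithin_le_nhds
    refine (hev.mono fun x hx => ?_).frequently
    show F (x : ℂ) = R (x : ℂ)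
    rw [hF2 x hx.1, hR2 x ⟨by simpa using hx.2.1, by simpa using hx.2.2⟩]
  refine ⟨C, fun z hz hz2 => ?_⟩
  rw [← heq ⟨hKU hz, hz2⟩]
  exact hC z hz

/-- one of the four boxes: `p = 0` or `p = π`, `σ = 1` or `σ = -1`, `τ = 1` or `τ = -1` -/
theorem ext2_box {f : ℝ → ℂ} (hf : Ext f) {R : ℂ → ℂ} (hR : DifferentiableOn ℂ R Pool.Agent.Lib_helper37.JO.strip)
    (hR2 : ∀ θ : ℝ, θ ∈ Ioo (0 : ℝ) Real.pi → R θ = f θ) {p σ τ : ℝ}
    (hp : σ * (Real.pi / 2 - p) = Real.pi / 2) (hσ : σ = 1 ∨ σ = -1)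
    (hsin : ∀ z : ℂ, Complex.sin z = 0 → Complex.sin (z - p) = 0) (hτ : τ = 1 ∨ τ = -1)
    {η₁ : ℝ} (η₂ : ℝ) (hη₁ : 0 < η₁) :
    ∃ C : ℝ, ∀ z : ℂ, z ∈ Pool.Agent.Lib_helper37.JO.strip → 0 ≤ σ * (z.re - p) → σ * (z.re - p) ≤ Real.pi / 2 →
      η₁ ≤ τ * z.im → τ * z.im ≤ η₂ → ‖R z‖ ≤ C := by
  have hpi := Real.pi_pos
  set U : Set ℂ := ({z : ℂ | -Real.pi < z.re - p} ∩ {z : ℂ | z.re - p < Real.pi}) ∩
    {z : ℂ | 1 / 2 < 2 * (σ * (z.re - p)) / Real.pi + τ * z.im / η₁} with hUdef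
  have hσp : |Real.pi / 2 - p| < Real.pi := by
    rcases hσ with h | h
    · rw [h] at hp
      have : Real.pi / 2 - p = Real.pi / 2 := by linarith
      rw [this, abs_of_pos (by positivity)]
      linarith
    · rw [h] at hp
      have : Real.pi / 2 - p = -(Real.pi / 2) := by linarith
      rw [this, abs_neg, abs_of_pos (by positivity)]
      linarith
  have hUo : IsOpen U := by
    refine ((isOpen_lt continuous_const (Complex.continuous_re.sub continuous_const)).inter
      (isOpen_lt (Complex.continuous_re.sub continuous_const) continuous_const)).inter ?_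
    refine isOpen_lt continuous_const ?_
    fun_prop
  have hUc : Convex ℝ U := by
    intro z hz w hw a b ha hb hab
    obtain ⟨⟨z1, z2⟩, z3⟩ := hz
    obtain ⟨⟨w1, w2⟩, w3⟩ := hw
    simp only [mem_ofPred_eq] at z1 z2 z3 w1 w2 w3
    have e1 : (a • z + b • w).re = a * z.re + b * w.re := by simp
    have e2 : (a • z + b • w).im = a * z.im + b * w.im := by simp
    have e3 : (a • z + b • w).re - p = a * (z.re - p) + b * (w.re - p) := by
      rw [e1]
      have : p = (a + b) * p := by rw [hab, one_mul]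
      linear_combination -this
    have e4 : 2 * (σ * (a * (z.re - p) + b * (w.re - p))) / Real.pi +
        τ * (a * z.im + b * w.im) / η₁ =
        a * (2 * (σ * (z.re - p)) / Real.pi + τ * z.im / η₁) +
        b * (2 * (σ * (w.re - p)) / Real.pi + τ * w.im / η₁) := by ring
    have key : ∀ x y c : ℝ, c < x → c < y → c < a * x + b * y := by
      intro x y c hx hy
      rcases ha.eq_or_lt with h0 | h0
      · have hb1 : b = 1 := by linarith
        rw [← h0, hb1]
        linarith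
      · have h1 := mul_lt_mul_of_pos_left hx h0
        have h2 := mul_le_mul_of_nonneg_left hy.le hb
        have h3 : c = a * c + b * c := by rw [← add_mul, hab, one_mul]
        linarith
    refine ⟨⟨?_, ?_⟩, ?_⟩
    · show -Real.pi < (a • z + b • w).re - p
      rw [e3]
      exact key _ _ _ z1 w1
    · show (a • z + b • w).re - p < Real.pi
      rw [e3]
      have := key _ _ _ (neg_lt_neg z2) (neg_lt_neg w2)
      linarith
    · show 1 / 2 < 2 * (σ * ((a • z + b • w).re - p)) / Real.pi + τ * (a • z + b • w).im / η₁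
      rw [e3, e2, e4]
      exact key _ _ _ z3 w3
  have hUp : ((Real.pi / 2 : ℝ) : ℂ) ∈ U := by
    have h1 := abs_lt.1 hσp
    refine ⟨⟨?_, ?_⟩, ?_⟩
    · show -Real.pi < ((Real.pi / 2 : ℝ) : ℂ).re - p
      rw [Complex.ofReal_re]; exact h1.1
    · show ((Real.pi / 2 : ℝ) : ℂ).re - p < Real.pi
      rw [Complex.ofReal_re]; exact h1.2
    · show 1 / 2 < 2 * (σ * (((Real.pi / 2 : ℝ) : ℂ).re - p)) / Real.pi +
        τ * ((Real.pi / 2 : ℝ) : ℂ).im / η₁
      rw [Complex.ofReal_re, Complex.ofReal_im, hp]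
      have : 2 * (Real.pi / 2) / Real.pi = 1 := by field_simp
      rw [this]
      norm_num
  have hUs : ∀ z ∈ U, Complex.sin z ≠ 0 := by
    intro z hz h0
    obtain ⟨⟨z1, z2⟩, z3⟩ := hz
    simp only [mem_ofPred_eq] at z1 z2 z3
    have h3 := ext_pi (hsin z h0) (by simpa using z1) (by simpa using z2)
    have h4 : z.re - p = 0 := by
      have := congrArg Complex.re h3
      simpa using this
    have h5 : z.im = 0 := by
      have := congrArg Complex.im h3
      simpa using this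
    rw [h4, h5] at z3
    norm_num at z3
  set K : Set ℂ := {z : ℂ | (0 ≤ σ * (z.re - p) ∧ σ * (z.re - p) ≤ Real.pi / 2) ∧
    (η₁ ≤ τ * z.im ∧ τ * z.im ≤ η₂)} with hKdef
  have hKc : IsCompact K := by
    refine Metric.isCompact_of_isClosed_isBounded ?_ ?_
    · refine (IsClosed.and ?_ ?_).inter (IsClosed.and ?_ ?_)
      · exact isClosed_le continuous_const (by fun_prop)
      · exact isClosed_le (by fun_prop) continuous_const
      · exact isClosed_le continuous_const (by fun_prop)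
      · exact isClosed_le (by fun_prop) continuous_const
    · have hb : Bornology.IsBounded
          ((Icc (p - Real.pi / 2) (p + Real.pi / 2)) ×ℂ (Icc (-|η₂|) |η₂|)) :=
        (isCompact_Icc.reProdIm isCompact_Icc).isBounded
      refine hb.subset ?_
      rintro z ⟨⟨h1, h2⟩, h3, h4⟩
      have h5 : τ * z.im ≤ |η₂| := h4.trans (le_abs_self _)
      refine ⟨?_, ?_⟩
      · show z.re ∈ Icc (p - Real.pi / 2) (p + Real.pi / 2)
        rcases hσ with h | h
        · rw [h] at h1 h2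
          exact ⟨by linarith, by linarith⟩
        · rw [h] at h1 h2
          exact ⟨by linarith, by linarith⟩
      · show z.im ∈ Icc (-|η₂|) |η₂|
        rcases hτ with h | h
        · rw [h] at h3 h5
          exact ⟨by linarith [abs_nonneg η₂], by linarith⟩
        · rw [h] at h3 h5
          exact ⟨by linarith, by linarith [abs_nonneg η₂]⟩
  have hKU : K ⊆ U := by
    rintro z ⟨⟨h1, h2⟩, h3, h4⟩
    have h5 : |z.re - p| < Real.pi := by
      rcases hσ with h | h
      · rw [h] at h1 h2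
        rw [abs_of_nonneg (by linarith)]
        linarith
      · rw [h] at h1 h2
        rw [abs_of_nonpos (by linarith)]
        linarith
    have h6 := abs_lt.1 h5
    refine ⟨⟨h6.1, h6.2⟩, ?_⟩
    show 1 / 2 < 2 * (σ * (z.re - p)) / Real.pi + τ * z.im / η₁
    have h7 : 0 ≤ 2 * (σ * (z.re - p)) / Real.pi := by positivity
    have h8 : 1 ≤ τ * z.im / η₁ := by rw [le_div_iff₀ hη₁]; linarith
    linarith
  obtain ⟨C, hC⟩ := ext2_cpt hf hR hR2 hUo hUc hUp hUs hKc hKU
  exact ⟨C, fun z hz h1 h2 h3 h4 => hC z ⟨⟨h1, h2⟩, h3, h4⟩ hz⟩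

/-- EXT2: the conclusion at both ends of the strip -/
theorem ext_concl2 {f : ℝ → ℂ} (hf : Ext f) : ∃ R : ℂ → ℂ,
    DifferentiableOn ℂ R Pool.Agent.Lib_helper37.JO.strip ∧
    (∀ θ : ℝ, θ ∈ Ioo (0 : ℝ) Real.pi → R θ = f θ) ∧
    ∀ η₁ η₂ : ℝ, 0 < η₁ → ∃ C : ℝ, ∀ θ : ℂ, θ ∈ Pool.Agent.Lib_helper37.JO.strip → η₁ ≤ |θ.im| → |θ.im| ≤ η₂ →
      ‖R θ‖ ≤ C := by
  have hpi := Real.pi_pos
  obtain ⟨R, hR, hR2, -⟩ := ext_concl hf
  refine ⟨R, hR, hR2, fun η₁ η₂ hη₁ => ?_⟩
  have hs0 : ∀ z : ℂ, Complex.sin z = 0 → Complex.sin (z - ((0 : ℝ) : ℂ)) = 0 := by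
    intro z hz
    rw [Complex.ofReal_zero, sub_zero, hz]
  have hs1 : ∀ z : ℂ, Complex.sin z = 0 → Complex.sin (z - ((Real.pi : ℝ) : ℂ)) = 0 := by
    intro z hz
    rw [Complex.sin_sub_pi, hz, neg_zero]
  have hp0 : (1 : ℝ) * (Real.pi / 2 - 0) = Real.pi / 2 := by ring
  have hp1 : (-1 : ℝ) * (Real.pi / 2 - Real.pi) = Real.pi / 2 := by ring
  obtain ⟨C1, h1⟩ := ext2_box hf hR hR2 hp0 (Or.inl rfl) hs0 (Or.inl rfl) η₂ hη₁
  obtain ⟨C2, h2⟩ := ext2_box hf hR hR2 hp0 (Or.inl rfl) hs0 (Or.inr rfl) η₂ hη₁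
  obtain ⟨C3, h3⟩ := ext2_box hf hR hR2 hp1 (Or.inr rfl) hs1 (Or.inl rfl) η₂ hη₁
  obtain ⟨C4, h4⟩ := ext2_box hf hR hR2 hp1 (Or.inr rfl) hs1 (Or.inr rfl) η₂ hη₁
  refine ⟨max (max C1 C2) (max C3 C4), fun z hz ha hb => ?_⟩
  have hz1 : 0 < z.re := hz.1
  have hz2 : z.re < Real.pi := hz.2
  rcases le_total z.re (Real.pi / 2) with hr | hr
  · rcases le_total 0 z.im with hi | hi
    · rw [abs_of_nonneg hi] at ha hb
      exact (h1 z hz (by linarith) (by linarith) (by linarith) (by linarith)).trans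
        ((le_max_left _ _).trans (le_max_left _ _))
    · rw [abs_of_nonpos hi] at ha hb
      exact (h2 z hz (by linarith) (by linarith) (by linarith) (by linarith)).trans
        ((le_max_right _ _).trans (le_max_left _ _))
  · rcases le_total 0 z.im with hi | hi
    · rw [abs_of_nonneg hi] at ha hb
      exact (h3 z hz (by linarith) (by linarith) (by linarith) (by linarith)).trans
        ((le_max_left _ _).trans (le_max_right _ _))
    · rw [abs_of_nonpos hi] at ha hb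
      exact (h4 z hz (by linarith) (by linarith) (by linarith) (by linarith)).trans
        ((le_max_right _ _).trans (le_max_right _ _))

end Pool.Agent.JOS
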