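import Pool.Agent.Lib_helper42.JO1.Defs
import Pool.Agent.Lib_helper84.JO.SETop

/-!
# Project JO, part FM, weight 1: interface with the other parts
-/

set_option autoImplicit false

namespace Pool.Agent.JO.FM1

open Complex Filter Topology MeasureTheory Set
open UpperHalfPlane hiding I
open Pool.Agent.JO.FM
open Pool.Agent.Lib_helper37.JO (HJ HJ1 strip)
open scoped MatrixGroups ComplexConjugate

/-- the conclusion of the spectral part, both ends of the strip -/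
def SEConcl2 {N : ℕ} [NeZero N] (Zf : ZMod N × ZMod N → ℝ → ℝ → ℂ) (u : ℍ → ℂ) : Prop :=
  ∃ R : ℂ → ℂ, DifferentiableOn ℂ R strip ∧
    (∀ θ : ℝ, θ ∈ Set.Ioo (0 : ℝ) Real.pi → rayF u θ = Fct (N := N) Zf u θ + R θ) ∧
    ∀ η₁ η₂ : ℝ, 0 < η₁ → ∃ C : ℝ, ∀ θ : ℂ, θ ∈ strip → η₁ ≤ |θ.im| → |θ.im| ≤ η₂ → ‖R θ‖ ≤ C

/-- the conclusion of part B for the form `u`, exponent `e`, both ends of the strip -/
def BConcl2 {N : ℕ} [NeZero N] (Zf : ZMod N × ZMod N → ℝ → ℝ → ℂ) (e : ℕ) (u : ℍ → ℂ) : Prop :=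
  DifferentiableOn ℂ (Fct (N := N) Zf u) strip ∧
    ∀ η₁ η₂ : ℝ, 0 < η₁ → ∃ C : ℝ, ∀ θ : ℂ, θ ∈ strip → η₁ ≤ |θ.im| → |θ.im| ≤ η₂ →
      ‖Fct (N := N) Zf u θ‖ ≤ C * ((min θ.re (Real.pi - θ.re)) ^ e)⁻¹

/-- the target statement of S + E6 for Maass forms of weight `1` -/
def SEMaass1 (N : ℕ) [NeZero N] (Zf : ZMod N × ZMod N → ℝ → ℝ → ℂ) : Prop :=
  ∀ (χ : DirichletCharacter ℂ N) (u : ℍ → ℂ) (a : ℕ → ℂ) (ν : ℂ) (ε : ℝ),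
    WForm N χ 1 a u → Cusp1 N ν u → Frame1 ν ε a u → aMDec N u →
    (∀ θ₀ ∈ SP.II, ∃ (M : ℂ → ℂ) (R : ℝ), DifferentiableOn ℂ M SP.QQ ∧
      (∀ κ : ℝ, 0 < κ → Tendsto (fun η : ℝ => (η : ℂ) * M (SP.pt κ η)) (𝓝[>] 0) (𝓝 0)) ∧
      ∀ s : ℂ, s ∈ SP.QQ → R < s.re →
        km ν s * Dt (ray (phi u)) θ₀ s -
          kp ν s * Dt (fun θ => ray (phi u) (Real.pi - θ)) θ₀ s = M s) →
    SEConcl2 (N := N) Zf u

end Pool.Agent.JO.FM1
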