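import Pool.Agent.Lib_helper58.JOSF.UNP

/-! # JO: unfolding in polar coordinates for `Γ₀(N)`-invariant functions of exponential decay -/

namespace Pool.Agent.JOS

open Complex MeasureTheory Filter Topology UpperHalfPlane ModularGroup Set Metric
open scoped MatrixGroups Modular ENNReal ComplexConjugate ContDiff
open Pool.Agent.JO (QN red FamH PV bot cH)
open Pool.Agent.Lib_helper37.JO (HJ)

/-- continuous `Γ₀(N)`-invariant functions which decay exponentially at all cusps -/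
structure InvD (N : ℕ) (v : ℍ → ℂ) : Prop where
  cont : Continuous v
  inv : ∀ γ : SL(2, ℤ), (N : ℤ) ∣ γ 1 0 → ∀ z : ℍ, v (γ • z) = v z
  dec : ∃ C c : ℝ, 0 < c ∧ ∀ (γ : SL(2, ℤ)) (z : ℍ), 1 / 2 ≤ z.im →
    ‖v (γ • z)‖ ≤ C * Real.exp (-c * z.im)

/-- the family of `v` -/
noncomputable def vF {N : ℕ} [NeZero N] (v : ℍ → ℂ) (s : QN N) (z : ℍ) : ℂ :=
  v ((Pool.Agent.JO.lft s)⁻¹ • z)

theorem unv_lower {N : ℕ} [NeZero N] {δ : SL(2, ℤ)} (h : red N δ = 1) : (N : ℤ) ∣ δ 1 0 := by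
  have h1 : (red N δ) 1 0 = (1 : QN N) 1 0 := by rw [h]
  have h2 : (red N δ) 1 0 = ((δ 1 0 : ℤ) : ZMod N) := rfl
  have h3 : (1 : QN N) 1 0 = 0 := rfl
  rw [h2, h3] at h1
  exact (ZMod.intCast_zmod_eq_zero_iff_dvd _ _).1 h1

/-- the family only depends on the class of the lift -/
theorem vF_lift {N : ℕ} [NeZero N] {v : ℍ → ℂ} (h : InvD N v) {s : QN N} {δ : SL(2, ℤ)}
    (hδ : red N δ = s) (z : ℍ) : vF v s z = v (δ⁻¹ • z) := by
  unfold vF
  have h1 : red N (Pool.Agent.JO.lft s) = s := Pool.Agent.JO.red_lft s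
  have h2 : red N ((Pool.Agent.JO.lft s)⁻¹ * δ) = 1 := by
    unfold red at h1 hδ ⊢
    rw [map_mul, map_inv, h1, hδ, inv_mul_cancel]
  have h3 := h.inv _ (unv_lower h2) (δ⁻¹ • z)
  rw [smul_smul, mul_assoc, mul_inv_cancel, mul_one] at h3
  exact h3

theorem vF_one {N : ℕ} [NeZero N] {v : ℍ → ℂ} (h : InvD N v) (z : ℍ) :
    vF v (1 : QN N) z = v z := by
  have h1 : red N 1 = 1 := by
    unfold red
    exact map_one _
  rw [vF_lift h h1, inv_one, one_smul]

theorem famH_vF {N : ℕ} [NeZero N] {v : ℍ → ℂ} (h : InvD N v) : FamH (N := N) (vF v) := by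
  intro γ s z
  have h1 : red N (γ * Pool.Agent.JO.lft s) = red N γ * s := by
    have h2 : red N (Pool.Agent.JO.lft s) = s := Pool.Agent.JO.red_lft s
    unfold red at h2 ⊢
    rw [map_mul, h2]
  rw [vF_lift h h1, mul_inv_rev, smul_smul, mul_assoc, inv_mul_cancel, mul_one]
  rfl

theorem vF_cont {N : ℕ} [NeZero N] {v : ℍ → ℂ} (h : InvD N v) (s : QN N) :
    Continuous (vF v s) := by
  unfold vF
  have h1 : Continuous (fun z : ℍ => (Pool.Agent.JO.lft s)⁻¹ • z) :=
    continuous_const_smul (Matrix.SpecialLinearGroup.mapGL ℝ (Pool.Agent.JO.lft s)⁻¹)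
  exact h.cont.comp h1

/-- decay in polar coordinates, `τ ≥ 0` direction and `τ ≤ 0` direction -/
theorem unv_decay {N : ℕ} {v : ℍ → ℂ} (h : InvD N v) : ∃ C c : ℝ, 0 ≤ C ∧ 0 < c ∧
      ∀ τ θ : ℝ, θ ∈ Ioo 0 Real.pi → 1 / 2 ≤ Real.exp |τ| * Real.sin θ →
        ‖v (pt τ θ)‖ ≤ C * Real.exp (-c * (Real.exp |τ| * Real.sin θ)) := by
  obtain ⟨C, c, hc, hd⟩ := h.dec
  refine ⟨|C|, c, abs_nonneg _, hc, fun τ θ hθ h => ?_⟩
  have hle : ∀ x : ℝ, C * Real.exp x ≤ |C| * Real.exp x := fun x =>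
    mul_le_mul_of_nonneg_right (le_abs_self _) (Real.exp_nonneg _)
  rcases le_total 0 τ with h0 | h0
  · rw [abs_of_nonneg h0] at h ⊢
    have h1 := hd 1 (pt τ θ) (by rw [pt_im hθ]; exact h)
    rw [one_smul, pt_im hθ] at h1
    exact h1.trans (hle _)
  · rw [abs_of_nonpos h0] at h ⊢
    have him : (ModularGroup.S • pt τ θ).im = Real.exp (-τ) * Real.sin θ := by
      rw [UpperHalfPlane.modular_S_smul]
      have h2 : ((⟨(-(pt τ θ : ℂ))⁻¹, by exact (pt τ θ).im_inv_neg_coe_pos⟩ : ℍ)).im =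
          ((-(pt τ θ : ℂ))⁻¹).im := rfl
      have h3 : (-(pt τ θ : ℂ))⁻¹ = -cexp (-(τ : ℂ) - θ * Complex.I) := by
        rw [pt_coe hθ, inv_neg, ← Complex.exp_neg]
        congr 2
        ring
      rw [h2, h3, Complex.neg_im, Complex.exp_im]
      have h4 : (-(τ : ℂ) - θ * Complex.I).re = -τ := by simp
      have h5 : (-(τ : ℂ) - θ * Complex.I).im = -θ := by simp
      rw [h4, h5, Real.sin_neg]
      ring
    have h1 := hd ModularGroup.S (ModularGroup.S • pt τ θ) (by rw [him]; exact h)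
    have hss : ModularGroup.S • ModularGroup.S • pt τ θ = pt τ θ := by
      have hS : (ModularGroup.S * ModularGroup.S : SL(2, ℤ)) = -1 := by
        ext i j
        have := congrFun (congrFun ModularGroup.S_mul_S_eq i) j
        simpa using this
      rw [smul_smul, hS, ModularGroup.SL_neg_smul, one_smul]
    rw [hss, him] at h1
    exact h1.trans (hle _)

/-- points of the fundamental domain are not too low -/
theorem unv_fd {z : ℍ} (hz : z ∈ 𝒟) : 1 / 2 ≤ z.im := by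
  have h1 := ModularGroup.three_le_four_mul_im_sq_of_mem_fd hz
  have h2 := z.im_pos
  nlinarith

/-- global bound -/
theorem unv_bdd {N : ℕ} {v : ℍ → ℂ} (h : InvD N v) : ∃ C : ℝ, 0 ≤ C ∧ ∀ z : ℍ, ‖v z‖ ≤ C := by
  obtain ⟨C, c, hc, hd⟩ := h.dec
  refine ⟨|C|, abs_nonneg _, fun z => ?_⟩
  obtain ⟨g, hg⟩ := ModularGroup.exists_smul_mem_fd z
  have h1 := hd g⁻¹ (g • z) (unv_fd hg)
  rw [smul_smul, inv_mul_cancel, one_smul] at h1
  refine h1.trans ?_
  have h3 : Real.exp (-c * (g • z).im) ≤ 1 := by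
    apply Real.exp_le_one_iff.2
    have := mul_pos hc (g • z).im_pos
    linarith
  calc C * Real.exp (-c * (g • z).im) ≤ |C| * Real.exp (-c * (g • z).im) :=
        mul_le_mul_of_nonneg_right (le_abs_self _) (Real.exp_nonneg _)
    _ ≤ |C| * 1 := mul_le_mul_of_nonneg_left h3 (abs_nonneg _)
    _ = |C| := mul_one _

/-- global decay in polar coordinates -/
theorem unv_glob {N : ℕ} {v : ℍ → ℂ} (h : InvD N v) : ∃ C c : ℝ, 0 ≤ C ∧ 0 < c ∧
    ∀ τ θ : ℝ, θ ∈ Ioo 0 Real.pi → ‖v (pt τ θ)‖ ≤ C * Real.exp (-(c * Real.sin θ * |τ|)) := by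
  obtain ⟨C, c, hC, hc, hd⟩ := unv_decay h
  obtain ⟨B, hB, hb⟩ := unv_bdd h
  refine ⟨C + B * Real.exp c, c, by positivity, hc, fun τ θ hθ => ?_⟩
  have hs : 0 < Real.sin θ := sin_pos_pi hθ
  have hBc : 0 ≤ B * Real.exp c := by positivity
  have h1 : |τ| ≤ Real.exp |τ| := by
    have := Real.add_one_le_exp |τ|
    linarith
  have h2 : Real.sin θ * |τ| ≤ Real.exp |τ| * Real.sin θ := by
    have := mul_le_mul_of_nonneg_left h1 hs.le
    linarith
  by_cases h3 : 1 / 2 ≤ Real.exp |τ| * Real.sin θ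
  · refine (hd τ θ hθ h3).trans ?_
    refine mul_le_mul (by linarith) (Real.exp_le_exp.2 ?_) (Real.exp_nonneg _) (by positivity)
    nlinarith
  · push Not at h3
    refine (hb _).trans ?_
    have h4 : B ≤ B * Real.exp c * Real.exp (-(c * Real.sin θ * |τ|)) := by
      rw [mul_assoc, ← Real.exp_add]
      refine le_mul_of_one_le_right hB (Real.one_le_exp ?_)
      nlinarith
    exact h4.trans (mul_le_mul_of_nonneg_right (by linarith) (Real.exp_nonneg _))

/-- domination on compact sets of angles -/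
theorem unv_bd {N : ℕ} {v : ℍ → ℂ} (h : InvD N v) :
    ∀ a b : ℝ, 0 < a → b < Real.pi → ∃ C c : ℝ, 0 < c ∧ ∀ θ ∈ Icc a b, ∀ τ : ℝ,
      ‖v (pt τ θ)‖ ≤ C * Real.exp (-(c * |τ|)) := by
  intro a b ha hb
  obtain ⟨C, c, hC, hc, hd⟩ := unv_glob h
  have hsub : Icc a b ⊆ Ioo 0 Real.pi := fun t ht =>
    ⟨lt_of_lt_of_le ha ht.1, lt_of_le_of_lt ht.2 hb⟩
  obtain ⟨m, hm, hmb⟩ : ∃ m : ℝ, 0 < m ∧ ∀ θ ∈ Icc a b, m ≤ Real.sin θ := by
    rcases (Icc a b).eq_empty_or_nonempty with he | hne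
    · exact ⟨1, one_pos, fun θ hθ => by rw [he] at hθ; exact absurd hθ (notMem_empty _)⟩
    · obtain ⟨x, hx, hmin⟩ := isCompact_Icc.exists_isMinOn hne Real.continuous_sin.continuousOn
      exact ⟨Real.sin x, sin_pos_pi (hsub hx), fun θ hθ => hmin hθ⟩
  refine ⟨C, c * m, by positivity, fun θ hθ τ => (hd τ θ (hsub hθ)).trans ?_⟩
  refine mul_le_mul_of_nonneg_left (Real.exp_le_exp.2 ?_) hC
  have h1 := mul_le_mul_of_nonneg_right (mul_le_mul_of_nonneg_left (hmb θ hθ) hc.le)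
    (abs_nonneg τ)
  linarith

/-- UNV: continuity of the ray function -/
theorem vF_ray_cont {N : ℕ} {v : ℍ → ℂ} (h : InvD N v) :
    ContinuousOn (Pool.Agent.JO.ray v) (Ioo 0 Real.pi) := by
  have h1 := (ray_gen unp_tk0 h.cont (unv_bd h)).1
  exact h1.congr (fun θ hθ => ray_eq _ hθ)

/-- UNV: bound of the ray function -/
theorem vF_ray_bd {N : ℕ} {v : ℍ → ℂ} (h : InvD N v) :
    ∃ C : ℝ, 0 ≤ C ∧ ∀ θ ∈ Ioo 0 Real.pi, ‖Pool.Agent.JO.ray v θ‖ ≤ C / Real.sin θ := by
  obtain ⟨C, c, hC, hc, hd⟩ := unv_glob h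
  refine ⟨C * (2 / c), by positivity, fun θ hθ => ?_⟩
  have hs : 0 < Real.sin θ := sin_pos_pi hθ
  rw [ray_eq _ hθ]
  unfold PT
  have hσ : 0 < c * Real.sin θ := by positivity
  calc ‖∫ τ : ℝ, v (pt τ θ)‖ ≤ ∫ τ : ℝ, C * Real.exp (-(c * Real.sin θ * |τ|)) := by
        refine norm_integral_le_of_norm_le ((Pool.Agent.SP.f2_int hσ).const_mul C) ?_
        exact Eventually.of_forall (fun τ => hd τ θ hθ)
    _ = C * (2 / (c * Real.sin θ)) := by
        rw [integral_const_mul, Pool.Agent.SP.f2_integral hσ]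
    _ = C * (2 / c) / Real.sin θ := by
        field_simp

/-- the function on `ℝ × (0, π)` -/
theorem unv_int {N : ℕ} {v : ℍ → ℂ} (h : InvD N v) {b : ℝ → ℂ} (hb : TA b) :
    IntegrableOn (fun p : ℝ × ℝ => ((1 / Real.sin p.2 ^ 2 : ℝ) : ℂ) *
      (v (pt p.1 p.2) * conj (ag b (pt p.1 p.2))))
      ((univ : Set ℝ) ×ˢ Ioo 0 Real.pi) := by
  obtain ⟨a, c, ha, hc, hs⟩ := hb.supp
  obtain ⟨C, c', hc', hbd⟩ := unv_bd h a c ha hc
  have hsub : Icc a c ⊆ Ioo 0 Real.pi := fun t ht =>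
    ⟨lt_of_lt_of_le ha ht.1, lt_of_le_of_lt ht.2 hc⟩
  obtain ⟨B, hB⟩ := (isCompact_Icc (a := a) (b := c)).exists_bound_of_continuousOn
    (f := fun t => ((1 / Real.sin t ^ 2 : ℝ) : ℂ) * conj (b t)) (by
      refine ContinuousOn.mul ?_ (Complex.continuous_conj.comp hb.cont).continuousOn
      refine Complex.continuous_ofReal.comp_continuousOn ?_
      refine continuousOn_const.div (Real.continuous_sin.pow 2).continuousOn (fun t ht => ?_)
      have := sin_pos_pi (hsub ht)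
      positivity)
  have hmaj : Integrable (fun p : ℝ × ℝ => Real.exp (-(c' * |p.1|)) * (|B| * |C|))
      ((volume : Measure ℝ).prod (volume.restrict (Ioo 0 Real.pi))) := by
    refine Integrable.mul_prod (f := fun τ : ℝ => Real.exp (-(c' * |τ|))) (g := fun _ : ℝ => |B| * |C|) ?_ ?_
    · have h1 := Pool.Agent.SP.f2_int (σ := c') hc'
      exact h1
    · exact integrable_const _
  have hrest : (volume : Measure (ℝ × ℝ)).restrict ((univ : Set ℝ) ×ˢ Ioo 0 Real.pi) =
      (volume : Measure ℝ).prod (volume.restrict (Ioo 0 Real.pi)) := by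
    rw [Measure.volume_eq_prod, ← Measure.prod_restrict, Measure.restrict_univ]
  unfold IntegrableOn
  rw [hrest]
  refine hmaj.mono' ?_ ?_
  · rw [← hrest]
    have hm : ContinuousOn (fun p : ℝ × ℝ => ((1 / Real.sin p.2 ^ 2 : ℝ) : ℂ) *
      (v (pt p.1 p.2) * conj (b p.2))) ((univ : Set ℝ) ×ˢ Ioo 0 Real.pi) := by
      refine ContinuousOn.mul ?_ (ContinuousOn.mul ?_ ?_)
      · refine Complex.continuous_ofReal.comp_continuousOn ?_
        refine continuousOn_const.div ((Real.continuous_sin.comp continuous_snd).pow 2).continuousOn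
          (fun p hp => ?_)
        have := sin_pos_pi hp.2
        exact (pow_pos this 2).ne'
      · exact h.cont.comp_continuousOn pt_cont
      · exact (Complex.continuous_conj.comp (hb.cont.comp continuous_snd)).continuousOn
    refine (hm.congr (fun p hp => ?_)).aestronglyMeasurable
      (MeasurableSet.univ.prod measurableSet_Ioo)
    simp only [ag]
    rw [pt_arg hp.2]
  · rw [← hrest, ae_restrict_iff' (MeasurableSet.univ.prod measurableSet_Ioo)]
    refine Eventually.of_forall (fun p hp => ?_)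
    have hag : ag b (pt p.1 p.2) = b p.2 := by
      unfold ag
      rw [pt_arg hp.2]
    rw [hag]
    by_cases hin : p.2 ∈ Icc a c
    · have h1 := hbd p.2 hin p.1
      have h2 := hB p.2 hin
      calc ‖((1 / Real.sin p.2 ^ 2 : ℝ) : ℂ) * (v (pt p.1 p.2) * conj (b p.2))‖
          = ‖((1 / Real.sin p.2 ^ 2 : ℝ) : ℂ) * conj (b p.2)‖ * ‖v (pt p.1 p.2)‖ := by
            rw [← norm_mul]; congr 1; ring
        _ ≤ |B| * (|C| * Real.exp (-(c' * |p.1|))) := by
            refine mul_le_mul (h2.trans (le_abs_self _)) (h1.trans ?_) (norm_nonneg _) (abs_nonneg _)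
            exact mul_le_mul_of_nonneg_right (le_abs_self _) (Real.exp_nonneg _)
        _ = _ := by ring
    · have : b p.2 = 0 := by
        by_contra hne
        exact hin (hs _ hne)
      rw [this]
      simp only [map_zero, mul_zero, norm_zero]
      positivity

/-- UNV: unfolding -/
theorem ip_v {N : ℕ} [NeZero N] {v : ℍ → ℂ} (h : InvD N v) {b : ℝ → ℂ} (hb : TA b) :
    ipH (vF (N := N) v) (PO N (ag b)) = 2 * PR (Pool.Agent.JO.ray v) b := by
  have hI := unv_int h hb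
  have h1w : ∀ w : ℍ, vF v (1 : QN N) w = v w := fun w => vF_one h w
  have hint : Integrable (fun w => vF v (1 : QN N) w * conj (ag b w)) := by
    simp_rw [h1w]
    exact (pol_integrable (fun w => v w * conj (ag b w))).2 hI
  rw [po_unf (famH_vF h) hint]
  simp_rw [h1w]
  rw [pol_int (fun w => v w * conj (ag b w))]
  congr 1
  have hrest : (volume : Measure (ℝ × ℝ)).restrict ((univ : Set ℝ) ×ˢ Ioo 0 Real.pi) =
      (volume : Measure ℝ).prod (volume.restrict (Ioo 0 Real.pi)) := by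
    rw [Measure.volume_eq_prod, ← Measure.prod_restrict, Measure.restrict_univ]
  rw [hrest, integral_prod_symm _ (by
    unfold IntegrableOn at hI
    rwa [hrest] at hI)]
  unfold PR
  refine setIntegral_congr_fun measurableSet_Ioo (fun θ hθ => ?_)
  simp only
  have h1 : ∀ τ : ℝ, ((1 / Real.sin θ ^ 2 : ℝ) : ℂ) * (v (pt τ θ) *
      conj (ag b (pt τ θ))) =
      (((1 / Real.sin θ ^ 2 : ℝ) : ℂ) * conj (b θ)) * v (pt τ θ) := by
    intro τ
    unfold ag
    rw [pt_arg hθ]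
    ring
  simp_rw [h1]
  rw [integral_const_mul, ray_eq _ hθ]
  unfold PT
  push_cast
  ring

/-- UNV: the family of `v` is square integrable -/
theorem vF_sq {N : ℕ} [NeZero N] {v : ℍ → ℂ} (h : InvD N v) : SqH (vF (N := N) v) := by
  refine ⟨famH_vF h, fun s => (vF_cont h s).measurable, fun s => ?_⟩
  obtain ⟨C, hC, hd⟩ := unv_bdd h
  have hmeas : MeasurableSet (𝒟ᵒ : Set ℍ) := by
    have ho : IsOpen (𝒟ᵒ : Set ℍ) := ModularGroup.isOpen_fdo
    exact ho.measurableSet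
  refine Measure.integrableOn_of_bounded (M := C ^ 2) vol_fdo.ne
    (((vF_cont h s).norm.pow 2).aestronglyMeasurable) ?_
  rw [ae_restrict_iff' hmeas]
  refine Eventually.of_forall (fun z _ => ?_)
  rw [Real.norm_of_nonneg (by positivity)]
  exact pow_le_pow_left₀ (norm_nonneg _) (hd _) 2

/-- `|u|²` of a form -/
theorem invD_phi {N : ℕ} [NeZero N] {χ : DirichletCharacter ℂ N} {k : ℕ} {lam : ℕ → ℂ}
    {u : ℍ → ℂ} (hu : Pool.Agent.JO.WForm N χ k lam u) :
    InvD N (fun z => ((‖u z‖ ^ 2 : ℝ) : ℂ)) := by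
  refine ⟨Complex.continuous_ofReal.comp (hu.cont.norm.pow 2), fun γ hγ z => ?_, ?_⟩
  · have h1 : ∀ w : ℍ, Pool.Agent.JO.phiF u (1 : QN N) w = ((‖u w‖ ^ 2 : ℝ) : ℂ) :=
      fun w => Pool.Agent.JO.phiF_one hu w
    rw [hu.aut γ hγ z, norm_mul, norm_mul, norm_pow]
    have h2 : ‖(denom γ z / ‖denom γ z‖ : ℂ)‖ = 1 := by
      rw [norm_div, Complex.norm_real, norm_norm, div_self]
      exact norm_ne_zero_iff.2 (denom_ne_zero _ _)
    have h3 : ‖χ ((γ 1 1 : ℤ) : ZMod N)‖ = 1 := by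
      have hdet := Matrix.SpecialLinearGroup.det_coe γ
      rw [Matrix.det_fin_two] at hdet
      have hu' : IsUnit ((γ 1 1 : ℤ) : ZMod N) := by
        obtain ⟨m, hm⟩ := hγ
        rw [hm] at hdet
        have h4 := congrArg (fun x : ℤ => (x : ZMod N)) hdet
        push_cast at h4
        rw [ZMod.natCast_self, zero_mul, mul_zero, sub_zero] at h4
        exact IsUnit.of_mul_eq_one_right _ h4
      exact χ.unit_norm_eq_one hu'.unit
    rw [h2, h3, one_pow, one_mul, one_mul]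
  · obtain ⟨C, c, hc, hd⟩ := hu.decay
    refine ⟨C ^ 2, c * 2, by positivity, fun γ z hz => ?_⟩
    have h1 := hd γ z hz
    rw [Complex.norm_real, Real.norm_of_nonneg (by positivity)]
    calc ‖u (γ • z)‖ ^ 2 ≤ (C * Real.exp (-c * z.im)) ^ 2 :=
          pow_le_pow_left₀ (norm_nonneg _) h1 2
      _ = _ := by
          rw [mul_pow, ← Real.exp_nat_mul]
          congr 2
          push_cast
          ring

end Pool.Agent.JOS
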